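import Pool.Agent.X122.FP6

set_option autoImplicit false

/-!
# MP_57aba6_an: four point sets on which critically constrained polynomials are dense

For uncountably many `b > √2` the four point set `X = {-b, -1, 1, b}` satisfies `CP(X) = C_ℝ(X)`.
-/

namespace Pool.Agent.Results.MP_57aba6_an.FourPoints

open Polynomial Pool.Agent.X122.FP

/-- All zeros in `ℂ` of the derivative of `p` lie in `X`. -/
def CritIn (p : ℝ[X]) (X : Set ℝ) : Prop :=
  ∀ z : ℂ, aeval z (derivative p) = 0 → ∃ x ∈ X, z = (x : ℂ)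

/-- `CP(X) = C_ℝ(X)`: every continuous real function on `X` is a uniform limit on `X` of real
polynomials all of whose critical points lie in `X`. -/
def CPEverything (X : Set ℝ) : Prop :=
  ∀ f : ℝ → ℝ, ContinuousOn f X → ∀ ε : ℝ, 0 < ε →
    ∃ p : ℝ[X], CritIn p X ∧ ∀ x ∈ X, |p.eval x - f x| < ε

lemma exists_antideriv (Q : ℝ[X]) : ∃ P : ℝ[X], derivative P = Q := by
  induction Q using Polynomial.induction_on' with
  | add p q hp hq =>
    obtain ⟨P, hP⟩ := hp
    obtain ⟨R, hR⟩ := hq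
    exact ⟨P + R, by rw [derivative_add, hP, hR]⟩
  | monomial n a =>
    refine ⟨monomial (n + 1) (a / (n + 1)), ?_⟩
    rw [derivative_monomial]
    have : ((n : ℝ) + 1) ≠ 0 := by positivity
    congr 1
    push_cast
    field_simp

lemma eval_sub_eval (P : ℝ[X]) (p q : ℝ) :
    P.eval q - P.eval p = ∫ x in p..q, (derivative P).eval x := by
  rw [intervalIntegral.integral_eq_sub_of_hasDerivAt (fun x _ => P.hasDerivAt x)]
  exact (derivative P).continuous.intervalIntegrable _ _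

/-- The polynomial `∏ (X - t_i)^(m_i)`. -/
noncomputable def Qp (b : ℝ) (m : Fin 4 → ℕ) : ℝ[X] := ∏ i, (Polynomial.X - C (pts b i)) ^ (m i)

lemma pow_neg_abs {x t : ℝ} (h : x ≤ t) (n : ℕ) : (x - t) ^ n = (-1) ^ n * |x - t| ^ n := by
  rw [abs_of_nonpos (by linarith), ← mul_pow]
  congr 1
  ring

lemma pow_pos_abs {x t : ℝ} (h : t ≤ x) (n : ℕ) : (x - t) ^ n = |x - t| ^ n := by
  rw [abs_of_nonneg (by linarith)]

lemma Qp_eval (b : ℝ) (m : Fin 4 → ℕ) (x : ℝ) :
    (Qp b m).eval x = (x - -b) ^ (m 0) * (x - -1) ^ (m 1) * (x - 1) ^ (m 2) * (x - b) ^ (m 3) := by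
  unfold Qp pts
  rw [eval_prod, Fin.prod_univ_four]
  simp only [Matrix.cons_val_zero, Matrix.cons_val_one, Matrix.cons_val, eval_pow, eval_sub, eval_X,
    eval_C]

lemma W_eval (b : ℝ) (m : Fin 4 → ℕ) (x : ℝ) :
    W b m x = |x - -b| ^ (m 0) * |x - -1| ^ (m 1) * |x - 1| ^ (m 2) * |x - b| ^ (m 3) := by
  unfold W pts
  rw [Fin.prod_univ_four]
  simp only [Matrix.cons_val_zero, Matrix.cons_val_one, Matrix.cons_val]

section
variable {b : ℝ} (hb : 1 < b) (m : Fin 4 → ℕ) (hm : Even (m 3))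
include hb hm

lemma int1 : ∫ x in (-b)..(-1), (Qp b m).eval x = (-1) ^ (m 1 + m 2) * J b m (-b) (-1) := by
  unfold J
  rw [← intervalIntegral.integral_const_mul]
  apply intervalIntegral.integral_congr
  intro x hx
  rw [Set.uIcc_of_le (by linarith)] at hx
  have h1 := hx.1
  have h2 := hx.2
  simp only
  rw [Qp_eval, W_eval, pow_pos_abs h1, pow_neg_abs h2, pow_neg_abs (by linarith : x ≤ 1),
    pow_neg_abs (by linarith : x ≤ b), hm.neg_one_pow, pow_add]
  ring

lemma int2 : ∫ x in (-1)..1, (Qp b m).eval x = (-1) ^ (m 2) * J b m (-1) 1 := by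
  unfold J
  rw [← intervalIntegral.integral_const_mul]
  apply intervalIntegral.integral_congr
  intro x hx
  rw [Set.uIcc_of_le (by linarith)] at hx
  have h1 := hx.1
  have h2 := hx.2
  simp only
  rw [Qp_eval, W_eval, pow_pos_abs (by linarith : -b ≤ x), pow_pos_abs h1, pow_neg_abs h2,
    pow_neg_abs (by linarith : x ≤ b), hm.neg_one_pow]
  ring

lemma int3 : ∫ x in (1)..b, (Qp b m).eval x = J b m 1 b := by
  unfold J
  apply intervalIntegral.integral_congr
  intro x hx
  rw [Set.uIcc_of_le (by linarith)] at hx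
  have h1 := hx.1
  have h2 := hx.2
  simp only
  rw [Qp_eval, W_eval, pow_pos_abs (by linarith : -b ≤ x), pow_pos_abs (by linarith : -1 ≤ x),
    pow_pos_abs h1, pow_neg_abs h2, hm.neg_one_pow]
  ring

end

lemma near_ne_zero (d η : ℝ) (hη : 0 < η) : ∃ D : ℝ, D ≠ 0 ∧ |D - d| < η := by
  by_cases h : d = 0
  · refine ⟨η / 2, by positivity, ?_⟩
    rw [h, sub_zero, abs_of_pos (by positivity)]
    linarith
  · exact ⟨d, h, by rw [sub_self, abs_zero]; exact hη⟩

/-- The main statement for good parameters. -/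
theorem main {α : ℝ} (hgood : Good α) : CPEverything ({-bq α, -1, 1, bq α} : Set ℝ) := by
  intro f _ ε hε
  have hb : 1 < bq α := bq_gt_one hgood.1 hgood.2.1
  set b := bq α with hbdef
  set η := ε / 6 with hη
  have hη0 : 0 < η := by positivity
  obtain ⟨D₁, hD₁, hd₁⟩ := near_ne_zero (f (-1) - f (-b)) η hη0
  obtain ⟨D₂, hD₂, hd₂⟩ := near_ne_zero (f 1 - f (-1)) η hη0
  obtain ⟨D₃, hD₃, hd₃⟩ := near_ne_zero (f b - f 1) η hη0
  have hA : 0 < |D₃| := abs_pos.mpr hD₃
  obtain ⟨m, hm3, hq1, hq2⟩ := approx_quot α hgood (D₁ / D₃) (D₂ / D₃) (η / |D₃|)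
    (div_ne_zero hD₁ hD₃) (div_ne_zero hD₂ hD₃) (by positivity)
  rw [← hbdef] at hq1 hq2
  have hJ3 := J3_pos hb m
  set c := D₃ / J b m 1 b with hc
  have hc0 : c ≠ 0 := div_ne_zero hD₃ hJ3.ne'
  obtain ⟨P, hP⟩ := exists_antideriv (C c * Qp b m)
  set p : ℝ[X] := P + C (f (-b) - P.eval (-b)) with hp
  have hdp : derivative p = C c * Qp b m := by rw [hp, derivative_add, hP, derivative_C, add_zero]
  have hev : ∀ x y : ℝ, p.eval y - p.eval x = c * ∫ t in x..y, (Qp b m).eval t := by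
    intro x y
    rw [eval_sub_eval, hdp, ← intervalIntegral.integral_const_mul]
    congr 1
    funext t
    rw [eval_mul, eval_C]
  have e0 : p.eval (-b) = f (-b) := by rw [hp, eval_add, eval_C]; ring
  have e1 := hev (-b) (-1)
  have e2 := hev (-1) 1
  have e3 := hev 1 b
  rw [int1 hb m hm3] at e1
  rw [int2 hb m hm3] at e2
  rw [int3 hb m hm3, hc, div_mul_cancel₀ _ hJ3.ne'] at e3
  have a1 : |c * ((-1) ^ (m 1 + m 2) * J b m (-b) (-1)) - D₁| < η := by
    have : c * ((-1) ^ (m 1 + m 2) * J b m (-b) (-1)) - D₁ =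
        D₃ * ((-1) ^ (m 1 + m 2) * (J b m (-b) (-1) / J b m 1 b) - D₁ / D₃) := by
      rw [hc]
      field_simp
    rw [this, abs_mul]
    calc |D₃| * _ < |D₃| * (η / |D₃|) := mul_lt_mul_of_pos_left hq1 hA
      _ = η := by field_simp
  have a2 : |c * ((-1) ^ (m 2) * J b m (-1) 1) - D₂| < η := by
    have : c * ((-1) ^ (m 2) * J b m (-1) 1) - D₂ =
        D₃ * ((-1) ^ (m 2) * (J b m (-1) 1 / J b m 1 b) - D₂ / D₃) := by
      rw [hc]
      field_simp
    rw [this, abs_mul]
    calc |D₃| * _ < |D₃| * (η / |D₃|) := mul_lt_mul_of_pos_left hq2 hA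
      _ = η := by field_simp
  rw [← e1, abs_lt] at a1
  rw [← e2, abs_lt] at a2
  rw [abs_lt] at hd₁ hd₂ hd₃
  refine ⟨p, ?_, ?_⟩
  · intro z hz
    rw [hdp, map_mul, aeval_C] at hz
    have h1 : aeval z (Qp b m) = 0 := by
      rcases mul_eq_zero.mp hz with h | h
      · exfalso
        apply hc0
        simpa using h
      · exact h
    unfold Qp at h1
    rw [map_prod, Finset.prod_eq_zero_iff] at h1
    obtain ⟨i, _, hi⟩ := h1
    rw [map_pow] at hi
    have h2 := eq_zero_of_pow_eq_zero hi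
    rw [map_sub, aeval_X, aeval_C] at h2
    refine ⟨pts b i, ?_, ?_⟩
    · fin_cases i <;> simp [pts]
    · have h3 : z - (pts b i : ℂ) = 0 := h2
      exact sub_eq_zero.mp h3
  · intro x hx
    simp only [Set.mem_insert_iff, Set.mem_singleton_iff] at hx
    rcases hx with h | h | h | h
    · rw [h, e0, sub_self, abs_zero]; exact hε
    · rw [h, abs_lt]
      constructor <;> linarith [a1.1, a1.2, hd₁.1, hd₁.2]
    · rw [h, abs_lt]
      constructor <;> linarith [a1.1, a1.2, a2.1, a2.2, hd₁.1, hd₁.2, hd₂.1, hd₂.2]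
    · rw [h, abs_lt]
      constructor <;> linarith [a1.1, a1.2, a2.1, a2.2, hd₁.1, hd₁.2, hd₂.1, hd₂.2, hd₃.1, hd₃.2]

lemma good_gt {α : ℝ} (hgood : Good α) : √2 < bq α :=
  Real.sqrt_lt_sqrt (by norm_num) (Bf_spec hgood.1 hgood.2.1).1

theorem result :
    ¬ {b : ℝ | √2 < b ∧ CPEverything ({-b, -1, 1, b} : Set ℝ)}.Countable ∧
    ∃ X : Set ℝ, IsCompact X ∧ ¬ IsPreconnected X ∧ X.encard = 4 ∧ CPEverything X := by
  have hunc : ¬ {b : ℝ | √2 < b ∧ CPEverything ({-b, -1, 1, b} : Set ℝ)}.Countable := by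
    intro hcount
    apply good_uncountable
    apply Set.countable_of_injective_of_countable_image bq_inj
    apply hcount.mono
    rintro b ⟨α, hα, rfl⟩
    exact ⟨good_gt hα, main hα⟩
  refine ⟨hunc, ?_⟩
  have hne : {b : ℝ | √2 < b ∧ CPEverything ({-b, -1, 1, b} : Set ℝ)}.Nonempty := by
    by_contra h
    rw [Set.not_nonempty_iff_eq_empty] at h
    apply hunc
    rw [h]
    exact Set.countable_empty
  obtain ⟨b, hb2, hb⟩ := hne
  have hb1 : 1 < b := by
    have : (1 : ℝ) < √2 := by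
      rw [Real.lt_sqrt (by norm_num)]
      norm_num
    linarith
  refine ⟨{-b, -1, 1, b}, (Set.toFinite _).isCompact, ?_, ?_, hb⟩
  · intro hpre
    have h0 : (0 : ℝ) ∈ ({-b, -1, 1, b} : Set ℝ) :=
      hpre.Icc_subset (a := -1) (b := 1) (by simp) (by simp) ⟨by norm_num, by norm_num⟩
    simp only [Set.mem_insert_iff, Set.mem_singleton_iff] at h0
    rcases h0 with h | h | h | h <;> linarith
  · rw [Set.encard_insert_of_notMem, Set.encard_insert_of_notMem, Set.encard_insert_of_notMem,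
      Set.encard_singleton]
    · norm_num
    · simp only [Set.mem_singleton_iff]
      linarith
    · simp only [Set.mem_insert_iff, Set.mem_singleton_iff]
      rintro (h | h) <;> linarith
    · simp only [Set.mem_insert_iff, Set.mem_singleton_iff]
      rintro (h | h | h) <;> linarith

end Pool.Agent.Results.MP_57aba6_an.FourPoints
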